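import Pool.Agent.Work.MP_ee1cd8_co_helper2.Defs

/-!
# Absorbing a missing set along injective chains
-/

namespace Pool.Agent.Work.MP_ee1cd8_co_helper2

open Complex Set

/-- A colouring of `B` by isometries which together map `B` bijectively onto `A` gives an
equidecomposition. -/
theorem of_bijOn {n : ℕ} {A B : Set ℂ} (G : Fin n → ℂ ≃ᵢ ℂ) (c : ℂ → Fin n)
    (h : BijOn (fun t => G (c t) t) B A) : Equidecomposable n B A := by
  refine ⟨fun i => {t ∈ B | c t = i}, G, ?_, ?_, ?_, ?_⟩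
  · ext t; simp
  · intro i j hij
    rw [Set.disjoint_left]
    rintro t ⟨_, h1⟩ ⟨_, h2⟩
    exact hij (h1.symm.trans h2)
  · ext z
    simp only [mem_iUnion, mem_image, mem_ofPred_eq]
    constructor
    · rintro ⟨i, t, ⟨ht, rfl⟩, rfl⟩
      exact h.mapsTo ht
    · intro hz
      obtain ⟨t, ht, rfl⟩ := h.surjOn hz
      exact ⟨c t, t, ⟨ht, rfl⟩, rfl⟩
  · intro i j hij
    rw [Set.disjoint_left]
    rintro _ ⟨t, ⟨ht, h1⟩, rfl⟩ ⟨t', ⟨ht', h2⟩, e⟩
    have : t' = t := h.injOn ht' ht (by simp only [h1, h2]; exact e)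
    subst this
    exact hij (h1.symm.trans h2)

/-- The absorption lemma. `f` maps `B \ K` bijectively onto `A`, and the points `x n t`
(`n : ℕ`, `t ∈ K`), with `x 0 t = t`, are pairwise different points of `B`. If `f` and the steps
`x n t ↦ f (x (n + 1) t)` use the isometries `G i` only, then `B` and `A` are equidecomposable. -/
theorem absorb {n : ℕ} [Nonempty (Fin n)] {A B K : Set ℂ} (G : Fin n → ℂ ≃ᵢ ℂ) (f : ℂ → ℂ)
    (hf : BijOn f (B \ K) A) (hfc : ∀ t ∈ B \ K, ∃ i, f t = G i t) (x : ℕ → ℂ → ℂ)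
    (hx0 : ∀ t ∈ K, x 0 t = t) (hxB : ∀ t ∈ K, ∀ m, x m t ∈ B)
    (hinj : ∀ t ∈ K, ∀ t' ∈ K, ∀ m m', x m t = x m' t' → m = m' ∧ t = t')
    (hstep : ∀ t ∈ K, ∀ m, ∃ i, f (x (m + 1) t) = G i (x m t)) : Equidecomposable n B A := by
  classical
  have hK : ∀ t ∈ K, ∀ m, x (m + 1) t ∉ K := by
    intro t ht m hm
    have := hinj t ht _ hm (m + 1) 0 (hx0 _ hm).symm
    omega
  -- the shift
  let U : Set ℂ := {u | ∃ t ∈ K, ∃ m, u = x m t}
  have hex : ∀ u, ∃ v, (∀ t ∈ K, ∀ m, u = x m t → v = x (m + 1) t) ∧ (u ∉ U → v = u) := by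
    intro u
    by_cases hu : u ∈ U
    · obtain ⟨t, ht, m, rfl⟩ := hu
      refine ⟨x (m + 1) t, ?_, fun h => absurd ⟨t, ht, m, rfl⟩ h⟩
      intro t' ht' m' e
      obtain ⟨rfl, rfl⟩ := hinj t ht t' ht' m m' e
      rfl
    · refine ⟨u, ?_, fun _ => rfl⟩
      intro t ht m e
      exact absurd ⟨t, ht, m, e⟩ hu
  choose σ hσ1 hσ2 using hex
  have hUσ : ∀ t ∈ K, ∀ m, σ (x m t) = x (m + 1) t := fun t ht m => hσ1 _ t ht m rfl
  have hKU : K ⊆ U := fun t ht => ⟨t, ht, 0, (hx0 t ht).symm⟩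
  have hσ : BijOn σ B (B \ K) := by
    refine ⟨?_, ?_, ?_⟩
    · intro u hu
      by_cases hU : u ∈ U
      · obtain ⟨t, ht, m, rfl⟩ := hU
        rw [hUσ t ht m]
        exact ⟨hxB t ht _, hK t ht m⟩
      · rw [hσ2 u hU]
        exact ⟨hu, fun h => hU (hKU h)⟩
    · intro u hu v hv e
      by_cases hU : u ∈ U <;> by_cases hV : v ∈ U
      · obtain ⟨t, ht, m, rfl⟩ := hU
        obtain ⟨t', ht', m', rfl⟩ := hV
        rw [hUσ t ht m, hUσ t' ht' m'] at e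
        obtain ⟨h1, rfl⟩ := hinj t ht t' ht' _ _ e
        obtain rfl : m = m' := by omega
        rfl
      · obtain ⟨t, ht, m, rfl⟩ := hU
        rw [hUσ t ht m, hσ2 v hV] at e
        exact absurd ⟨t, ht, m + 1, e.symm⟩ hV
      · obtain ⟨t, ht, m, rfl⟩ := hV
        rw [hUσ t ht m, hσ2 u hU] at e
        exact absurd ⟨t, ht, m + 1, e⟩ hU
      · rwa [hσ2 u hU, hσ2 v hV] at e
    · rintro v ⟨hv, hvK⟩
      by_cases hV : v ∈ U
      · obtain ⟨t, ht, m, rfl⟩ := hV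
        cases m with
        | zero => exact absurd ((hx0 t ht).symm ▸ ht) hvK
        | succ m => exact ⟨x m t, hxB t ht m, hUσ t ht m⟩
      · exact ⟨v, hv, hσ2 v hV⟩
  have hcol : ∀ u, ∃ i : Fin n, u ∈ B → f (σ u) = G i u := by
    intro u
    by_cases hu : u ∈ B
    · by_cases hU : u ∈ U
      · obtain ⟨t, ht, m, rfl⟩ := hU
        obtain ⟨i, hi⟩ := hstep t ht m
        exact ⟨i, fun _ => by rw [hUσ t ht m, hi]⟩
      · obtain ⟨i, hi⟩ := hfc u ⟨hu, fun h => hU (hKU h)⟩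
        exact ⟨i, fun _ => by rw [hσ2 u hU, hi]⟩
    · exact ⟨Classical.arbitrary _, fun h => absurd h hu⟩
  choose c hc using hcol
  refine of_bijOn G c ?_
  refine (hf.comp hσ).congr ?_
  intro u hu
  exact hc u hu

end Pool.Agent.Work.MP_ee1cd8_co_helper2
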