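import Mathlib

/-!
# Equidecomposability in the plane

The plane is `ℂ` with its usual distance; `ℂ ≃ᵢ ℂ` is the group of all isometries of the plane.
-/

namespace Pool.Agent.Work.MP_ee1cd8_co_helper2

open Complex Set

/-- `A` and `B` are equidecomposable using `n` pieces: `A` is partitioned into arbitrary subsets
`P 0, …, P (n - 1)`, and `B` is partitioned into their images under isometries `g i` of the
plane. -/
def Equidecomposable (n : ℕ) (A B : Set ℂ) : Prop :=
  ∃ (P : Fin n → Set ℂ) (g : Fin n → ℂ ≃ᵢ ℂ),
    (⋃ i, P i) = A ∧ Pairwise (fun i j => Disjoint (P i) (P j)) ∧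
    (⋃ i, g i '' P i) = B ∧ Pairwise (fun i j => Disjoint (g i '' P i) (g j '' P j))

/-- The closed square `[0, 1]²` of side `1`. -/
def unitSquare : Set ℂ := {z | 0 ≤ z.re ∧ z.re ≤ 1 ∧ 0 ≤ z.im ∧ z.im ≤ 1}

/-- The closed isosceles right triangle with the right angle at `0` and the two acute angles at
`1 + i` and `1 - i`; its legs have length `√2` and its hypotenuse has length `2`. -/
def rightTriangle : Set ℂ := {z | |z.im| ≤ z.re ∧ z.re ≤ 1}

/-- The least number of pieces in an equidecomposition of the square and the triangle. -/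
noncomputable def leastPieces : ℕ := sInf {n | Equidecomposable n unitSquare rightTriangle}

theorem Equidecomposable.symm {n : ℕ} {A B : Set ℂ} (h : Equidecomposable n A B) :
    Equidecomposable n B A := by
  obtain ⟨P, g, h1, h2, h3, h4⟩ := h
  refine ⟨fun i => g i '' P i, fun i => (g i).symm, h3, h4, ?_, ?_⟩
  · simpa [Set.image_image] using h1
  · simpa [Set.image_image] using h2

theorem Equidecomposable.succ {n : ℕ} {A B : Set ℂ} (h : Equidecomposable n A B) :
    Equidecomposable (n + 1) A B := by
  obtain ⟨P, g, h1, h2, h3, h4⟩ := h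
  refine ⟨Fin.cons ∅ P, Fin.cons (IsometryEquiv.refl ℂ) g, ?_, ?_, ?_, ?_⟩
  · rw [← h1]; ext z; simp
  · intro i j
    refine Fin.cases ?_ (fun i => ?_) i <;> refine Fin.cases ?_ (fun j => ?_) j <;> intro hij
    · exact absurd rfl hij
    · simp
    · simp
    · simpa using h2 (fun h => hij (by rw [h]))
  · rw [← h3]; ext z; simp [Fin.exists_fin_succ]
  · intro i j
    refine Fin.cases ?_ (fun i => ?_) i <;> refine Fin.cases ?_ (fun j => ?_) j <;> intro hij
    · exact absurd rfl hij
    · simp
    · simp
    · simpa using h4 (fun h => hij (by rw [h]))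

theorem Equidecomposable.mono {m n : ℕ} {A B : Set ℂ} (h : Equidecomposable m A B) (hmn : m ≤ n) :
    Equidecomposable n A B := by
  induction n, hmn using Nat.le_induction with
  | base => exact h
  | succ n _ ih => exact ih.succ

end Pool.Agent.Work.MP_ee1cd8_co_helper2
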