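import Pool.Agent.Work.MP_ee1cd8_co_helper2.Defs

/-!
# Two pieces are not enough
-/

namespace Pool.Agent.Work.MP_ee1cd8_co_helper2

open Complex Set

/-- The centre of the square. -/
noncomputable def ctr : ℂ := ⟨1 / 2, 1 / 2⟩

theorem isClosed_unitSquare : IsClosed unitSquare := by
  unfold unitSquare
  refine (isClosed_le continuous_const continuous_re).inter
    ((isClosed_le continuous_re continuous_const).inter
      ((isClosed_le continuous_const continuous_im).inter
        (isClosed_le continuous_im continuous_const)))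

theorem dist_sq (z w : ℂ) : dist z w ^ 2 = (z.re - w.re) ^ 2 + (z.im - w.im) ^ 2 := by
  rw [Complex.dist_eq, Complex.sq_norm, Complex.normSq_apply]
  simp; ring

theorem dist_sq_le {z w : ℂ} (hz : z ∈ unitSquare) (hw : w ∈ unitSquare) : dist z w ^ 2 ≤ 2 := by
  rw [dist_sq]
  obtain ⟨h1, h2, h3, h4⟩ := hz
  obtain ⟨k1, k2, k3, k4⟩ := hw
  nlinarith

/-- Two points of the square at distance `√2` are opposite corners, so their midpoint is the
centre. -/
theorem midpoint_eq {z w : ℂ} (hz : z ∈ unitSquare) (hw : w ∈ unitSquare)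
    (h : dist z w ^ 2 = 2) : midpoint ℝ z w = ctr := by
  rw [dist_sq] at h
  obtain ⟨h1, h2, h3, h4⟩ := hz
  obtain ⟨k1, k2, k3, k4⟩ := hw
  have a1 : (z.re - w.re) ^ 2 ≤ 1 := by nlinarith
  have a2 : (z.im - w.im) ^ 2 ≤ 1 := by nlinarith
  have b1 : (z.re - w.re) ^ 2 = 1 := by linarith
  have b2 : (z.im - w.im) ^ 2 = 1 := by linarith
  have c1 : z.re + w.re = 1 := by
    have : (z.re - w.re - 1) * (z.re - w.re + 1) = 0 := by linear_combination b1
    rcases mul_eq_zero.1 this with h | h <;> linarith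
  have c2 : z.im + w.im = 1 := by
    have : (z.im - w.im - 1) * (z.im - w.im + 1) = 0 := by linear_combination b2
    rcases mul_eq_zero.1 this with h | h <;> linarith
  rw [midpoint_eq_smul_add]
  refine Complex.ext ?_ ?_
  · simp [ctr]; linarith
  · simp [ctr]; linarith

/-- If the piece `P ⊆ S` is mapped by `g` onto a set containing all the points `t * d`,
`0 < t ≤ 1`, of a segment of length `√2`, then `P` contains the centre of the square. -/
theorem ctr_mem {P : Set ℂ} {g : ℂ ≃ᵢ ℂ} (hP : P ⊆ unitSquare) {d : ℂ} (hd : dist d 0 ^ 2 = 2)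
    (h : ∀ t : ℝ, 0 < t → t ≤ 1 → (t : ℂ) * d ∈ g '' P) : ctr ∈ P := by
  have hmem : ∀ t : ℝ, 0 < t → t ≤ 1 → g.symm ((t : ℂ) * d) ∈ P := by
    intro t h0 h1
    obtain ⟨p, hp, e⟩ := h t h0 h1
    rw [← e]; simpa using hp
  have h1 : g.symm d ∈ unitSquare := hP (by simpa using hmem 1 one_pos le_rfl)
  have h0 : g.symm 0 ∈ unitSquare := by
    have hc : Filter.Tendsto (fun t : ℝ => g.symm ((t : ℂ) * d)) (nhdsWithin 0 (Set.Ioi 0))
        (nhds (g.symm 0)) := by
      have : Filter.Tendsto (fun t : ℝ => g.symm ((t : ℂ) * d)) (nhds 0)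
          (nhds (g.symm (((0 : ℝ) : ℂ) * d))) := by
        apply Continuous.tendsto
        exact g.symm.continuous.comp (continuous_ofReal.mul continuous_const)
      simp only [ofReal_zero, zero_mul] at this
      exact this.mono_left nhdsWithin_le_nhds
    refine isClosed_unitSquare.mem_of_tendsto hc ?_
    filter_upwards [Ioc_mem_nhdsGT (zero_lt_one' ℝ)] with t ht
    exact hP (hmem t ht.1 ht.2)
  have h2 := hmem (1 / 2) (by norm_num) (by norm_num)
  have e1 : ((1 / 2 : ℝ) : ℂ) * d = midpoint ℝ d 0 := by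
    rw [midpoint_eq_smul_add]; simp
  rw [e1, IsometryEquiv.map_midpoint, midpoint_eq h1 h0 (by rw [g.symm.dist_eq]; exact hd)] at h2
  exact h2

theorem not_two : ¬ Equidecomposable 2 unitSquare rightTriangle := by
  rintro ⟨P, g, h1, h2, h3, h4⟩
  have hP : ∀ i, P i ⊆ unitSquare := fun i => by rw [← h1]; exact subset_iUnion P i
  -- the two acute corners
  have hdist : ∀ i, ∀ z ∈ g i '' P i, ∀ w ∈ g i '' P i, dist z w ^ 2 ≤ 2 := by
    rintro i _ ⟨p, hp, rfl⟩ _ ⟨q, hq, rfl⟩
    rw [(g i).dist_eq]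
    exact dist_sq_le (hP i hp) (hP i hq)
  have hT : ∀ z ∈ rightTriangle, ∃ i, z ∈ g i '' P i := by
    intro z hz; rw [← h3] at hz; simpa using hz
  have hmem : ∀ (s : ℝ), |s| = 1 → ∀ t : ℝ, 0 < t → t ≤ 1 → (t : ℂ) * ⟨1, s⟩ ∈ rightTriangle := by
    intro s hs t h0 h1
    constructor
    · simp [abs_mul, hs, abs_of_pos h0]
    · simpa using h1
  obtain ⟨a, ha⟩ := hT _ (by simpa using hmem 1 (by simp) 1 one_pos le_rfl)
  obtain ⟨b, hb⟩ := hT _ (by simpa using hmem (-1) (by simp) 1 one_pos le_rfl)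
  have hab : a ≠ b := by
    rintro rfl
    have := hdist a _ ha _ hb
    rw [dist_sq] at this
    norm_num at this
  have hcase : ∀ i, i = a ∨ i = b := by omega
  have ha' : ∀ t : ℝ, 0 < t → t ≤ 1 → (t : ℂ) * ⟨1, 1⟩ ∈ g a '' P a := by
    intro t h0 h1
    obtain ⟨i, hi⟩ := hT _ (hmem 1 (by simp) t h0 h1)
    rcases hcase i with rfl | rfl
    · exact hi
    · have := hdist _ _ hi _ hb
      rw [dist_sq] at this
      simp at this
      nlinarith
  have hb' : ∀ t : ℝ, 0 < t → t ≤ 1 → (t : ℂ) * ⟨1, -1⟩ ∈ g b '' P b := by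
    intro t h0 h1
    obtain ⟨i, hi⟩ := hT _ (hmem (-1) (by simp) t h0 h1)
    rcases hcase i with rfl | rfl
    · have := hdist _ _ hi _ ha
      rw [dist_sq] at this
      simp at this
      nlinarith
    · exact hi
  have c1 := ctr_mem (hP a) (by rw [dist_sq]; norm_num) ha'
  have c2 := ctr_mem (hP b) (by rw [dist_sq]; norm_num) hb'
  exact Set.disjoint_left.1 (h2 hab) c1 c2

end Pool.Agent.Work.MP_ee1cd8_co_helper2
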