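import Pool.Agent.Work.MP_ee1cd8_co_helper2.Seq
import Pool.Agent.Work.MP_ee1cd8_co_helper2.Lower

/-!
# Injectivity of the chains; the two bounds
-/

namespace Pool.Agent.Work.MP_ee1cd8_co_helper2

open Complex Set ComplexConjugate

/-- First part of the missing segment (three steps), the rest needs two steps. -/
def Short (t : ℂ) : Prop := s * t.re ≤ 3 / 16

open Classical in
/-- The chain of `t ∈ K`. -/
noncomputable def x : ℕ → ℂ → ℂ
  | 0, t => t
  | 1, t => X1 t
  | n + 2, t => if Short t then (match n with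
      | 0 => X2 t
      | k + 1 => R2^[k] (X3 t)) else G3^[n] (X2 t)

theorem x_zero (t : ℂ) : x 0 t = t := rfl
theorem x_one (t : ℂ) : x 1 t = X1 t := rfl
theorem x_two (t : ℂ) : x 2 t = X2 t := by
  by_cases h : Short t <;> simp [x, h]
theorem x_short {t : ℂ} (h : Short t) (k : ℕ) : x (k + 3) t = R2^[k] (X3 t) := by
  show x ((k + 1) + 2) t = _
  simp [x, h]
theorem x_long {t : ℂ} (h : ¬ Short t) (k : ℕ) : x (k + 2) t = G3^[k] (X2 t) := by
  simp [x, h]

section
variable {t : ℂ} (ht : t ∈ K)
include ht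

theorem sre : 0 < s * t.re ∧ s * t.re ≤ s - 1 := by
  refine ⟨mul_pos s_pos ht.2.1, ?_⟩
  have := s_sq
  have := s_pos
  nlinarith [ht.2.2]

theorem D1_long (h : ¬ Short t) : D1 (X2 t) < 36 / 625 := by
  rw [D1_X2 ht]
  have h1 := s_lo
  have h2 := s_hi
  have h3 := sre ht
  have h4 : 3 / 16 < s * t.re := not_le.1 h
  have hs := s_sq
  have e : (11 / 32 - s / 40) ^ 2 + (5 / 16 - 3 * s / 160) ^ 2 =
      121 / 1024 + 25 / 256 + 2 / 1600 + 9 * 2 / 25600 - s * (11 / 640 + 30 / 2560) := by
    linear_combination (1 / 1600 + 9 / 25600 : ℝ) * hs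
  rw [e]
  nlinarith

theorem D2_short (h : Short t) : D2 (X3 t) < 1 / 16 := by
  rw [D2_X3 ht]
  have h1 := s_lo
  have h2 := s_hi
  have h3 := re_bd ht
  have h4 : s * t.re ≤ 3 / 16 := h
  have hs := s_sq
  have h5 : t.re ≤ 0.13259 := by nlinarith
  have e : (s / 2 - 493 / 640) ^ 2 + (s / 2 - 471 / 640) ^ 2 =
      1 + (493 / 640) ^ 2 + (471 / 640) ^ 2 - s * (964 / 640) := by
    linear_combination (1 / 2 : ℝ) * hs
  rw [e]
  nlinarith

/-- The points of index at least two of a long chain. -/
theorem long_mem (h : ¬ Short t) (k : ℕ) : D1 (x (k + 2) t) = D1 (X2 t) ∧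
    0 < (x (k + 2) t).im ∧ (x (k + 2) t).im < (x (k + 2) t).re ∧ (x (k + 2) t).re < 9 / 10 := by
  have h1 : D1 (x (k + 2) t) = D1 (X2 t) := by rw [x_long h, D1_iter]
  exact ⟨h1, disc1 (by rw [h1]; exact D1_long ht h)⟩

theorem short_mem (h : Short t) (k : ℕ) : D2 (x (k + 3) t) = D2 (X3 t) ∧
    (x (k + 3) t).im < 0 ∧ - (x (k + 3) t).im < (x (k + 3) t).re ∧ (x (k + 3) t).re < 1 := by
  have h1 : D2 (x (k + 3) t) = D2 (X3 t) := by rw [x_short h, D2_iter]
  exact ⟨h1, disc2 (by rw [h1]; exact D2_short ht h)⟩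

theorem x_mem (m : ℕ) : x m t ∈ rightTriangle := by
  have up : ∀ z : ℂ, 0 ≤ z.im → z.im ≤ z.re → z.re ≤ 1 → z ∈ rightTriangle := by
    intro z h1 h2 h3
    exact ⟨by rw [abs_of_nonneg h1]; exact h2, h3⟩
  match m with
  | 0 =>
    have := re_bd ht
    exact up _ (by rw [x_zero, ht.1]; exact this.1.le) (by rw [x_zero]; exact ht.1.le)
      (by rw [x_zero]; linarith)
  | 1 =>
    have := X1_mem ht
    exact up _ this.1.le this.2.1.le this.2.2.1.le
  | 2 =>
    have := X2_mem ht
    rw [x_two]
    exact up _ this.1.le this.2.1.le this.2.2.1.le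
  | k + 3 =>
    by_cases h : Short t
    · obtain ⟨_, h1, h2, h3⟩ := short_mem ht h k
      refine ⟨?_, h3.le⟩
      rw [abs_of_neg h1]; exact h2.le
    · obtain ⟨_, h1, h2, h3⟩ := long_mem ht h (k + 1)
      exact up _ h1.le h2.le (by linarith)

theorem x_step (m : ℕ) : ∃ i, f (x (m + 1) t) = G i (x m t) := by
  match m with
  | 0 =>
    have := X1_mem ht
    exact ⟨3, by rw [x_one, f_up this.1 this.2.1]; rfl⟩
  | 1 =>
    have := X2_mem ht
    exact ⟨2, by rw [x_two, f_up this.1 this.2.1]; rfl⟩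
  | k + 2 =>
    by_cases h : Short t
    · obtain ⟨_, h1, _, _⟩ := short_mem ht h k
      cases k with
      | zero =>
        refine ⟨2, ?_⟩
        rw [f_down h1.le, x_short h, x_two]
        show G1 (X3 t) = G2 (X2 t)
        rw [X3, G1.apply_symm_apply]
      | succ k =>
        refine ⟨3, ?_⟩
        rw [f_down h1.le, x_short h, x_short h, Function.iterate_succ_apply']
        show G1 (R2 _) = G3 _
        rw [R2, G1.apply_symm_apply]
    · obtain ⟨_, h1, h2, _⟩ := long_mem ht h (k + 1)
      refine ⟨3, ?_⟩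
      rw [f_up h1 h2, x_long h, x_long h, Function.iterate_succ_apply']
      rfl

end

theorem eq_of_re {t t' : ℂ} (ht : t ∈ K) (ht' : t' ∈ K) (h : t.re = t'.re) : t = t' :=
  Complex.ext h (by rw [ht.1, ht'.1, h])

/-- `D1` is strictly decreasing along the second segment. -/
theorem D1_lt {t t' : ℂ} (ht : t ∈ K) (ht' : t' ∈ K) (h : t.re < t'.re) :
    D1 (X2 t') < D1 (X2 t) := by
  rw [D1_X2 ht, D1_X2 ht']
  have h1 := s_lo
  have h2 := s_hi
  have h3 := sre ht
  have h4 := sre ht'
  have h5 : s * t.re < s * t'.re := mul_lt_mul_of_pos_left h s_pos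
  nlinarith [mul_pos (sub_pos.2 h5) (show (0 : ℝ) < 2 * (37 / 80 - s / 32) - (s * t.re + s * t'.re)
    by linarith)]

theorem D2_lt {t t' : ℂ} (ht : t ∈ K) (ht' : t' ∈ K) (h : t.re < t'.re) :
    D2 (X3 t) < D2 (X3 t') := by
  rw [D2_X3 ht, D2_X3 ht']
  have h1 := s_lo
  have h2 := s_hi
  have h3 := re_bd ht
  have h4 := re_bd ht'
  nlinarith [mul_pos (sub_pos.2 h) (show (0 : ℝ) < (298 / 320 - 3 * s / 5 + 0) + (t.re + t'.re)
    by linarith)]

theorem eq_of_D1 {t t' : ℂ} (ht : t ∈ K) (ht' : t' ∈ K) (h : D1 (X2 t) = D1 (X2 t')) : t = t' := by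
  rcases lt_trichotomy t.re t'.re with h1 | h1 | h1
  · exact absurd h (D1_lt ht ht' h1).ne'
  · exact eq_of_re ht ht' h1
  · exact absurd h (D1_lt ht' ht h1).ne

theorem eq_of_D2 {t t' : ℂ} (ht : t ∈ K) (ht' : t' ∈ K) (h : D2 (X3 t) = D2 (X3 t')) : t = t' := by
  rcases lt_trichotomy t.re t'.re with h1 | h1 | h1
  · exact absurd h (D2_lt ht ht' h1).ne
  · exact eq_of_re ht ht' h1
  · exact absurd h (D2_lt ht' ht h1).ne'

theorem G3_iter_inj {t : ℂ} (ht : t ∈ K) {m n : ℕ} (h : G3^[m] (X2 t) = G3^[n] (X2 t)) :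
    m = n := by
  refine iterate_inj (e := ((-4 : ℤ) + (-3 : ℤ) * I) / 5) (c := ⟨21 / 32, 5 / 16⟩) ?_ ?_ G3 ?_ ?_ h
  · intro h0
    have := congrArg Complex.re h0
    norm_num at this
  · intro n hn
    exact pow_ne_one _ _ (by norm_num) (by norm_num) hn
  · intro z
    apply Complex.ext
    · simp [G3_re]; ring
    · simp [G3_im]; ring
  · intro h0
    have h1 := congrArg Complex.re h0
    have h2 := X2_im ht
    have h3 := s_lo
    have h4 := s_hi
    have h5 := sre ht
    rw [h0] at h2
    rw [X2_re ht] at h1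
    simp only at h1 h2
    linarith

theorem R2_iter_inj {t : ℂ} (ht : t ∈ K) {m n : ℕ} (h : R2^[m] (X3 t) = R2^[n] (X3 t)) :
    m = n := by
  refine iterate_inj (e := ((-3 : ℤ) + (4 : ℤ) * I) / 5) (c := ⟨93 / 128, -33 / 128⟩) ?_ ?_ R2 ?_ ?_ h
  · intro h0
    have := congrArg Complex.re h0
    norm_num at this
  · intro n hn
    exact pow_ne_one _ _ (by norm_num) (by norm_num) hn
  · intro z
    apply Complex.ext
    · simp [R2, G1s_re, G3_im]; ring
    · simp [R2, G1s_im, G3_re]; ring
  · intro h0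
    have h1 := congrArg Complex.re h0
    have h3 := s_lo
    have h4 := s_hi
    have h5 := re_bd ht
    rw [X3_re ht] at h1
    simp only at h1
    linarith

/-- The class of a point of a chain. -/
theorem x_inj {t t' : ℂ} (ht : t ∈ K) (ht' : t' ∈ K) {m m' : ℕ} (h : x m t = x m' t') :
    m = m' ∧ t = t' := by
  -- it suffices to treat `m ≤ m'`
  wlog hmm : m ≤ m' generalizing m m' t t'
  · obtain ⟨h1, h2⟩ := this ht' ht h.symm (le_of_not_ge hmm)
    exact ⟨h1.symm, h2.symm⟩
  have key : ∀ m, (x (m + 1) t').im < (x (m + 1) t').re := by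
    intro m
    match m with
    | 0 => exact (X1_mem ht').2.1
    | 1 => rw [x_two]; exact (X2_mem ht').2.1
    | k + 2 =>
      by_cases hS : Short t'
      · obtain ⟨_, h1, h2, _⟩ := short_mem ht' hS k
        linarith
      · exact (long_mem ht' hS (k + 1)).2.2.1
  match m, m' with
  | 0, 0 => exact ⟨rfl, h⟩
  | 0, m' + 1 =>
    have := key m'
    rw [← h, x_zero, ht.1] at this
    exact absurd this (lt_irrefl _)
  | 1, 0 => omega
  | k + 2, 0 => omega
  | k + 2, 1 => omega
  | 1, 1 =>
    refine ⟨rfl, eq_of_re ht ht' ?_⟩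
    have := congrArg Complex.re h
    rw [x_one, x_one, X1_re ht, X1_re ht'] at this
    linarith
  | 1, k + 2 =>
    exfalso
    have h1 := X1_mem ht
    by_cases hS : Short t'
    · cases k with
      | zero =>
        have := X2_mem ht'
        rw [x_one] at h
        rw [h, x_two] at h1
        linarith
      | succ k =>
        have := short_mem ht' hS k
        rw [x_one] at h
        rw [h] at h1
        linarith [this.2.1, h1.1]
    · have := long_mem ht' hS k
      rw [x_one] at h
      rw [h] at h1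
      linarith [this.2.2.2, h1.2.2.2.2]
  | k + 2, k' + 2 =>
    by_cases hS : Short t <;> by_cases hS' : Short t'
    · match k, k' with
      | 0, 0 =>
        refine ⟨rfl, eq_of_D1 ht ht' ?_⟩
        rw [x_two, x_two] at h
        rw [h]
      | 0, k' + 1 =>
        exfalso
        have h1 := X2_mem ht
        have h2 := short_mem ht' hS' k'
        rw [x_two] at h
        rw [h] at h1
        linarith [h1.1, h2.2.1]
      | k + 1, 0 => omega
      | k + 1, k' + 1 =>
        have h1 := (short_mem ht hS k).1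
        have h2 := (short_mem ht' hS' k').1
        have h3 : x (k + 3) t = x (k' + 3) t' := h
        rw [h3, h2] at h1
        obtain rfl := eq_of_D2 ht ht' h1.symm
        rw [x_short hS, x_short hS] at h3
        have := R2_iter_inj ht h3
        exact ⟨by omega, rfl⟩
    · exfalso
      have h2 := long_mem ht' hS' k'
      match k with
      | 0 =>
        rw [x_two] at h
        have h3 : t.re < t'.re := by
          have : s * t.re < s * t'.re := lt_of_le_of_lt hS (not_le.1 hS')
          exact lt_of_mul_lt_mul_left this s_pos.le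
        have h4 := D1_lt ht ht' h3
        rw [← h2.1, ← h] at h4
        exact lt_irrefl _ h4
      | k + 1 =>
        have h1 := short_mem ht hS k
        have h3 : x (k + 3) t = x (k' + 2) t' := h
        rw [h3] at h1
        linarith [h1.2.1, h2.2.1]
    · exfalso
      have h2 := long_mem ht hS k
      match k' with
      | 0 =>
        rw [x_two] at h
        have h3 : t'.re < t.re := by
          have : s * t'.re < s * t.re := lt_of_le_of_lt hS' (not_le.1 hS)
          exact lt_of_mul_lt_mul_left this s_pos.le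
        have h4 := D1_lt ht' ht h3
        rw [← h2.1, h] at h4
        exact lt_irrefl _ h4
      | k' + 1 =>
        have h1 := short_mem ht' hS' k'
        have h3 : x (k + 2) t = x (k' + 3) t' := h
        rw [← h3] at h1
        linarith [h1.2.1, h2.2.1]
    · have h1 := (long_mem ht hS k).1
      have h2 := (long_mem ht' hS' k').1
      rw [h, h2] at h1
      obtain rfl := eq_of_D1 ht ht' h1.symm
      rw [x_long hS, x_long hS] at h
      have := G3_iter_inj ht h
      exact ⟨by omega, rfl⟩

theorem four : Equidecomposable 4 unitSquare rightTriangle := by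
  refine Equidecomposable.symm (absorb G f bijOn_f ?_ x (fun t _ => x_zero t)
    (fun t ht m => x_mem ht m) (fun t ht t' ht' m m' h => x_inj ht ht' h)
    (fun t ht m => x_step ht m))
  rintro t ⟨⟨h1, _⟩, _⟩
  rw [abs_le] at h1
  rcases lt_or_ge 0 t.im with h | h
  · rcases eq_or_lt_of_le h1.2 with e | e
    · exact ⟨2, by rw [f_diag h e]; rfl⟩
    · exact ⟨0, by rw [f_up h e]; rfl⟩
  · exact ⟨1, by rw [f_down h]; rfl⟩

theorem bounds : leastPieces = 3 ∨ leastPieces = 4 := by
  have h1 : leastPieces ≤ 4 := Nat.sInf_le four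
  have h2 : 2 < leastPieces := by
    by_contra hc
    have h3 : Equidecomposable leastPieces unitSquare rightTriangle :=
      Nat.sInf_mem (s := {n | Equidecomposable n unitSquare rightTriangle}) ⟨4, four⟩
    exact not_two (h3.mono (not_lt.1 hc))
  omega

end Pool.Agent.Work.MP_ee1cd8_co_helper2
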