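import Pool.Agent.Work.MP_ee1cd8_co_helper2.Chain

/-!
# The four isometries and rotations of infinite order
-/

namespace Pool.Agent.Work.MP_ee1cd8_co_helper2

open Complex Set ComplexConjugate

/-- `z ↦ a z + b` with `a` of norm one. -/
noncomputable def rotIso (a b : ℂ) (ha : a * conj a = 1) : ℂ ≃ᵢ ℂ :=
  IsometryEquiv.mk' (fun z => a * z + b) (fun w => conj a * (w - b))
    (fun w => by linear_combination (w - b) * ha)
    (Isometry.of_dist_eq fun z w => by
      have h1 : ‖a‖ = 1 := by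
        have h2 : ((‖a‖ ^ 2 : ℝ) : ℂ) = 1 := by
          push_cast
          rw [← Complex.mul_conj']
          exact ha
        have h3 : ‖a‖ ^ 2 = 1 := by exact_mod_cast h2
        nlinarith [norm_nonneg a]
      rw [Complex.dist_eq, Complex.dist_eq,
        show a * z + b - (a * w + b) = a * (z - w) by ring, norm_mul, h1, one_mul])

/-- `z ↦ a z̄ + b` with `a` of norm one. -/
noncomputable def refIso (a b : ℂ) (ha : a * conj a = 1) : ℂ ≃ᵢ ℂ :=
  Complex.conjLIE.toIsometryEquiv.trans (rotIso a b ha)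

theorem rotIso_apply (a b : ℂ) (ha : a * conj a = 1) (z : ℂ) : rotIso a b ha z = a * z + b := rfl
theorem refIso_apply (a b : ℂ) (ha : a * conj a = 1) (z : ℂ) :
    refIso a b ha z = a * conj z + b := rfl

/-- The powers of `p + q i` with `q ≡ 2 p`, `p ≢ 0` modulo `5`. -/
theorem pow_form (p q : ℤ) (hp : ¬ (5 : ℤ) ∣ p) (hq : (5 : ℤ) ∣ q - 2 * p) (n : ℕ) :
    ∃ a b : ℤ, ((p : ℂ) + q * I) ^ (n + 1) = (a : ℂ) + b * I ∧ ¬ (5 : ℤ) ∣ a ∧
      (5 : ℤ) ∣ b - 2 * a := by
  induction n with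
  | zero => exact ⟨p, q, by simp, hp, hq⟩
  | succ n ih =>
    obtain ⟨a, b, h1, h2, h3⟩ := ih
    refine ⟨a * p - b * q, a * q + b * p, ?_, ?_, ?_⟩
    · rw [pow_succ, h1]
      push_cast
      linear_combination (b * q : ℂ) * I_mul_I
    · intro h
      obtain ⟨c, hc⟩ := hq
      obtain ⟨d, hd⟩ := h3
      have h5 : Prime (5 : ℤ) := by norm_num
      have : (5 : ℤ) ∣ a * p := by
        have hq' : q = 2 * p + 5 * c := by linarith
        have hb' : b = 2 * a + 5 * d := by linarith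
        obtain ⟨k, hk⟩ := h
        refine ⟨-2 * k - 2 * (2 * a * c + 2 * d * p + 5 * d * c) - a * p, ?_⟩
        subst hq' hb'
        linear_combination (-2) * hk
      rcases h5.dvd_or_dvd this with h | h
      · exact h2 h
      · exact hp h
    · obtain ⟨c, hc⟩ := hq
      obtain ⟨d, hd⟩ := h3
      have hq' : q = 2 * p + 5 * c := by linarith
      have hb' : b = 2 * a + 5 * d := by linarith
      subst hq' hb'
      exact ⟨2 * a * p + a * c + d * p + 4 * a * c + 4 * d * p + 10 * c * d, by ring⟩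

theorem pow_ne_one (p q : ℤ) (hp : ¬ (5 : ℤ) ∣ p) (hq : (5 : ℤ) ∣ q - 2 * p) {n : ℕ}
    (hn : n ≠ 0) : (((p : ℂ) + q * I) / 5) ^ n ≠ 1 := by
  obtain ⟨m, rfl⟩ := Nat.exists_eq_succ_of_ne_zero hn
  obtain ⟨a, b, h1, h2, _⟩ := pow_form p q hp hq m
  intro h
  rw [div_pow, Nat.succ_eq_add_one, h1, div_eq_one_iff_eq (pow_ne_zero _ (by norm_num))] at h
  have := congrArg Complex.re h
  have e : ((5 : ℂ) ^ (m + 1)).re = ((5 ^ (m + 1) : ℤ) : ℝ) := by
    have : ((5 : ℂ) ^ (m + 1)) = (((5 ^ (m + 1) : ℤ) : ℝ) : ℂ) := by push_cast; rfl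
    rw [this, Complex.ofReal_re]
  rw [e] at this
  simp at this
  have h3 : a = 5 ^ (m + 1) := by exact_mod_cast this
  exact h2 ⟨5 ^ m, by rw [h3, pow_succ]; ring⟩

/-- Orbits of a rotation of infinite order are infinite. -/
theorem iterate_inj {e c : ℂ} (he : e ≠ 0) (he1 : ∀ n : ℕ, n ≠ 0 → e ^ n ≠ 1) (ρ : ℂ → ℂ)
    (hρ : ∀ z, ρ z - c = e * (z - c)) {z : ℂ} (hz : z ≠ c) {m n : ℕ}
    (h : ρ^[m] z = ρ^[n] z) : m = n := by
  have key : ∀ k : ℕ, ρ^[k] z - c = e ^ k * (z - c) := by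
    intro k
    induction k with
    | zero => simp
    | succ k ih => rw [Function.iterate_succ_apply', hρ, ih, pow_succ]; ring
  have h1 : e ^ m * (z - c) = e ^ n * (z - c) := by rw [← key, ← key, h]
  have h2 : e ^ m = e ^ n := mul_right_cancel₀ (sub_ne_zero.2 hz) h1
  by_contra hne
  rcases Nat.lt_or_gt_of_ne hne with hlt | hlt
  · have : e ^ (n - m) = 1 := by
      have : e ^ m * e ^ (n - m) = e ^ m * 1 := by
        rw [← pow_add, Nat.add_sub_of_le hlt.le, mul_one, h2]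
      exact mul_left_cancel₀ (pow_ne_zero _ he) this
    exact he1 _ (by omega) this
  · have : e ^ (m - n) = 1 := by
      have : e ^ n * e ^ (m - n) = e ^ n * 1 := by
        rw [← pow_add, Nat.add_sub_of_le hlt.le, mul_one, h2]
      exact mul_left_cancel₀ (pow_ne_zero _ he) this
    exact he1 _ (by omega) this

end Pool.Agent.Work.MP_ee1cd8_co_helper2
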