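import Pool.Agent.Work.MP_ee1cd8_co_helper2.Upper

/-!
# The chains
-/

namespace Pool.Agent.Work.MP_ee1cd8_co_helper2

open Complex Set ComplexConjugate

/-- Squared distance to the first centre. -/
noncomputable def D1 (z : ℂ) : ℝ := (z.re - 21 / 32) ^ 2 + (z.im - 5 / 16) ^ 2
/-- Squared distance to the second centre. -/
noncomputable def D2 (z : ℂ) : ℝ := (z.re - 93 / 128) ^ 2 + (z.im + 33 / 128) ^ 2

/-- The second rotation of infinite order. -/
noncomputable def R2 (z : ℂ) : ℂ := G1.symm (G3 z)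

theorem G1s_re (z : ℂ) : (G1.symm z).re = z.im := by
  have := G1_im (G1.symm z); rw [G1.apply_symm_apply] at this; linarith
theorem G1s_im (z : ℂ) : (G1.symm z).im = - z.re := by
  have := G1_re (G1.symm z); rw [G1.apply_symm_apply] at this; linarith

theorem D1_G3 (z : ℂ) : D1 (G3 z) = D1 z := by
  simp only [D1, G3_re, G3_im]; ring
theorem D2_R2 (z : ℂ) : D2 (R2 z) = D2 z := by
  simp only [D2, R2, G1s_re, G1s_im, G3_re, G3_im]; ring

theorem D1_iter (z : ℂ) (n : ℕ) : D1 (G3^[n] z) = D1 z := by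
  induction n with
  | zero => rfl
  | succ n ih => rw [Function.iterate_succ_apply', D1_G3, ih]
theorem D2_iter (z : ℂ) (n : ℕ) : D2 (R2^[n] z) = D2 z := by
  induction n with
  | zero => rfl
  | succ n ih => rw [Function.iterate_succ_apply', D2_R2, ih]

/-- The first disc is inside the upper half of the triangle. -/
theorem disc1 {z : ℂ} (h : D1 z < 36 / 625) : 0 < z.im ∧ z.im < z.re ∧ z.re < 9 / 10 := by
  unfold D1 at h
  refine ⟨?_, ?_, ?_⟩
  · nlinarith [sq_nonneg (z.re - 21 / 32)]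
  · nlinarith [sq_nonneg ((z.re - 21 / 32) + (z.im - 5 / 16))]
  · nlinarith [sq_nonneg (z.im - 5 / 16)]

/-- The second disc is inside the lower half of the triangle. -/
theorem disc2 {z : ℂ} (h : D2 z < 1 / 16) : z.im < 0 ∧ - z.im < z.re ∧ z.re < 1 := by
  unfold D2 at h
  refine ⟨?_, ?_, ?_⟩
  · nlinarith [sq_nonneg (z.re - 93 / 128)]
  · nlinarith [sq_nonneg ((z.re - 93 / 128) - (z.im + 33 / 128))]
  · nlinarith [sq_nonneg (z.im + 33 / 128)]

noncomputable def X1 (t : ℂ) : ℂ := G3 t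
noncomputable def X2 (t : ℂ) : ℂ := G2 (X1 t)
noncomputable def X3 (t : ℂ) : ℂ := G1.symm (G2 (X2 t))

section
variable {t : ℂ} (ht : t ∈ K)
include ht

theorem X1_re : (X1 t).re = 159 / 160 - t.re / 5 := by
  rw [X1, G3_re, ht.1]; ring
theorem X1_im : (X1 t).im = 153 / 160 - 7 * t.re / 5 := by
  rw [X1, G3_im, ht.1]; ring
theorem X2_re : (X2 t).re = 1 - s / 40 - 4 / 5 * (s * t.re) := by
  rw [X2, G2_re, X1_re ht, X1_im ht]; ring
theorem X2_im : (X2 t).im = 3 * s / 160 + 3 / 5 * (s * t.re) := by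
  rw [X2, G2_im, X1_re ht, X1_im ht]; ring
theorem X3_re : (X3 t).re = s / 2 - 7 / 160 - 7 * t.re / 5 := by
  rw [X3, G1s_re, G2_im, X2_re ht, X2_im ht]
  linear_combination (-(7 : ℝ) / 320 - 7 / 10 * t.re) * s_sq
theorem X3_im : (X3 t).im = s / 2 + t.re / 5 - 159 / 160 := by
  rw [X3, G1s_im, G2_re, X2_re ht, X2_im ht]
  linear_combination ((1 : ℝ) / 320 + 1 / 10 * t.re) * s_sq

theorem re_bd : 0 < t.re ∧ t.re < 0.2929 := by
  have := s_lo
  exact ⟨ht.2.1, by linarith [ht.2.2]⟩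

theorem X1_mem : 0 < (X1 t).im ∧ (X1 t).im < (X1 t).re ∧ (X1 t).re < 1 ∧ 1 / 2 < (X1 t).im ∧
    9 / 10 < (X1 t).re := by
  have := re_bd ht
  rw [X1_re ht, X1_im ht]
  refine ⟨?_, ?_, ?_, ?_, ?_⟩ <;> linarith

theorem X2_mem : 0 < (X2 t).im ∧ (X2 t).im < (X2 t).re ∧ (X2 t).re < 1 ∧ (X2 t).im < 1 / 3 := by
  have h := re_bd ht
  have h1 := s_lo
  have h2 := s_hi
  have h3 : 0 < s * t.re := mul_pos s_pos h.1
  have h4 : s * t.re ≤ s - 1 := by
    have := s_sq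
    nlinarith [ht.2.2]
  rw [X2_re ht, X2_im ht]
  refine ⟨?_, ?_, ?_, ?_⟩ <;> linarith

/-- The squared distances as functions of the parameter. -/
theorem D1_X2 : D1 (X2 t) = (11 / 32 - s / 40) ^ 2 + (5 / 16 - 3 * s / 160) ^ 2
    - 2 * (s * t.re) * (37 / 80 - s / 32) + (s * t.re) ^ 2 := by
  rw [D1, X2_re ht, X2_im ht]; ring
theorem D2_X3 : D2 (X3 t) = (s / 2 - 493 / 640) ^ 2 + (s / 2 - 471 / 640) ^ 2
    + 2 * t.re * (298 / 320 - 3 * s / 5 + 0) + 2 * t.re ^ 2 := by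
  rw [D2, X3_re ht, X3_im ht]; ring

end

end Pool.Agent.Work.MP_ee1cd8_co_helper2
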