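import Pool.Agent.Work.MP_ee1cd8_co_helper2.Isos

/-!
# Four pieces suffice
-/

namespace Pool.Agent.Work.MP_ee1cd8_co_helper2

open Complex Set ComplexConjugate

noncomputable abbrev s : ℝ := √2

theorem s_sq : s * s = 2 := Real.mul_self_sqrt (by norm_num)
theorem s_pos : 0 < s := by positivity
theorem s_lo : 1.41421 < s := by
  have := s_sq; have := s_pos; nlinarith
theorem s_hi : s < 1.41422 := by
  have := s_sq; have := s_pos; nlinarith

/-- The inverses of the four isometries: the identity, the rotation by `90°` about `0`, the glide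
reflection, the rotation of infinite order about `(21 + 10 i) / 32`. -/
noncomputable def G1 : ℂ ≃ᵢ ℂ := rotIso ⟨0, 1⟩ 0 (by apply Complex.ext <;> simp)
noncomputable def G2 : ℂ ≃ᵢ ℂ := refIso ⟨s / 2, s / 2⟩ ⟨1 - s, 0⟩ (by
  have := s_sq
  apply Complex.ext <;> simp <;> nlinarith)
noncomputable def G3 : ℂ ≃ᵢ ℂ := rotIso ⟨-4 / 5, -3 / 5⟩ ⟨159 / 160, 153 / 160⟩ (by
  apply Complex.ext <;> simp <;> norm_num)

theorem G1_re (z : ℂ) : (G1 z).re = - z.im := by simp [G1, rotIso_apply]
theorem G1_im (z : ℂ) : (G1 z).im = z.re := by simp [G1, rotIso_apply]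
theorem G2_re (z : ℂ) : (G2 z).re = s / 2 * (z.re + z.im) + 1 - s := by
  simp [G2, refIso_apply]; ring
theorem G2_im (z : ℂ) : (G2 z).im = s / 2 * (z.re - z.im) := by
  simp [G2, refIso_apply]; ring
theorem G3_re (z : ℂ) : (G3 z).re = (-4 * z.re + 3 * z.im) / 5 + 159 / 160 := by
  simp [G3, rotIso_apply]; ring
theorem G3_im (z : ℂ) : (G3 z).im = (-3 * z.re - 4 * z.im) / 5 + 153 / 160 := by
  simp [G3, rotIso_apply]; ring

/-- The colours. -/
noncomputable def G : Fin 4 → ℂ ≃ᵢ ℂ := ![IsometryEquiv.refl ℂ, G1, G2, G3]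

/-- The missing half-open segment. -/
def K : Set ℂ := {t | t.im = t.re ∧ 0 < t.re ∧ t.re ≤ 1 - s / 2}

open Classical in
/-- The bijection from the triangle without `K` onto the square. -/
noncomputable def f (t : ℂ) : ℂ :=
  if 0 < t.im then (if t.im = t.re then G2 t else t) else G1 t

theorem f_diag {t : ℂ} (h1 : 0 < t.im) (h2 : t.im = t.re) : f t = G2 t := by
  simp [f, h1, h2, h2 ▸ h1]
theorem f_up {t : ℂ} (h1 : 0 < t.im) (h2 : t.im < t.re) : f t = t := by
  simp [f, h1, h2.ne]
theorem f_down {t : ℂ} (h1 : t.im ≤ 0) : f t = G1 t := by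
  simp [f, not_lt.2 h1]

theorem bijOn_f : BijOn f (rightTriangle \ K) unitSquare := by
  have hs := s_sq
  have hlo := s_lo
  have hhi := s_hi
  refine ⟨?_, ?_, ?_⟩
  · rintro t ⟨⟨h1, h2⟩, hK⟩
    rw [abs_le] at h1
    rcases lt_or_ge 0 t.im with h | h
    · rcases eq_or_lt_of_le h1.2 with e | e
      · rw [f_diag h e]
        have h3 : 1 - s / 2 < t.re := by
          by_contra hc
          exact hK ⟨e, by linarith, not_lt.1 hc⟩
        refine ⟨?_, ?_, ?_, ?_⟩
        · rw [G2_re, e]; nlinarith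
        · rw [G2_re, e]; nlinarith
        · rw [G2_im, e]; nlinarith
        · rw [G2_im, e]; nlinarith
      · rw [f_up h e]
        exact ⟨by linarith, h2, h.le, by linarith⟩
    · rw [f_down h]
      exact ⟨by rw [G1_re]; linarith, by rw [G1_re]; linarith, by rw [G1_im]; linarith,
        by rw [G1_im]; linarith⟩
  · -- three classes of values
    have cls : ∀ t ∈ rightTriangle \ K,
        (f t = G2 t ∧ t.im = t.re ∧ 0 < (f t).re ∧ (f t).im = 0) ∨
        (f t = t ∧ 0 < (f t).im ∧ (f t).im < (f t).re) ∨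
        (f t = G1 t ∧ (f t).re ≤ (f t).im) := by
      rintro t ⟨⟨h1, h2⟩, hK⟩
      rw [abs_le] at h1
      rcases lt_or_ge 0 t.im with h | h
      · rcases eq_or_lt_of_le h1.2 with e | e
        · left
          rw [f_diag h e]
          have h3 : 1 - s / 2 < t.re := by
            by_contra hc
            exact hK ⟨e, by linarith, not_lt.1 hc⟩
          refine ⟨rfl, e, ?_, ?_⟩
          · rw [G2_re, e]; nlinarith
          · rw [G2_im, e]; ring
        · right; left
          rw [f_up h e]
          exact ⟨rfl, h, e⟩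
      · right; right
        rw [f_down h]
        exact ⟨rfl, by rw [G1_re, G1_im]; linarith⟩
    intro t ht t' ht' e
    rcases cls t ht with ⟨a1, a2, a3, a4⟩ | ⟨a1, a2, a3⟩ | ⟨a1, a2⟩ <;>
    rcases cls t' ht' with ⟨b1, b2, b3, b4⟩ | ⟨b1, b2, b3⟩ | ⟨b1, b2⟩
    · rw [a1, b1] at e; exact G2.injective e
    · rw [e] at a4; linarith
    · rw [e] at a3 a4; linarith
    · rw [← e] at b4; linarith
    · rw [a1, b1] at e; exact e
    · rw [e] at a3; linarith
    · rw [← e] at b3 b4; linarith
    · rw [← e] at b3; linarith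
    · rw [a1, b1] at e; exact G1.injective e
  · rintro z ⟨h1, h2, h3, h4⟩
    rcases le_or_gt z.re z.im with h | h
    · refine ⟨G1.symm z, ?_⟩
      have e1 : (G1.symm z).im = - z.re := by
        have := G1_re (G1.symm z); rw [G1.apply_symm_apply] at this; linarith
      have e2 : (G1.symm z).re = z.im := by
        have := G1_im (G1.symm z); rw [G1.apply_symm_apply] at this; linarith
      refine ⟨⟨⟨?_, ?_⟩, ?_⟩, ?_⟩
      · rw [e1, e2, abs_le]; constructor <;> linarith
      · rw [e2]; exact h4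
      · rintro ⟨k1, k2, _⟩; rw [e1, e2] at k1; rw [e2] at k2; linarith
      · rw [f_down (by rw [e1]; linarith), G1.apply_symm_apply]
    · rcases eq_or_lt_of_le h3 with h0 | h0
      · refine ⟨⟨(z.re + s - 1) * (s / 2), (z.re + s - 1) * (s / 2)⟩, ⟨⟨?_, ?_⟩, ?_⟩, ?_⟩
        · rw [abs_of_nonneg]; nlinarith
        · show (z.re + s - 1) * (s / 2) ≤ 1
          nlinarith
        · rintro ⟨_, _, k3⟩
          have : (z.re + s - 1) * (s / 2) ≤ 1 - s / 2 := k3
          nlinarith
        · rw [f_diag _ rfl]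
          · apply Complex.ext
            · rw [G2_re]
              linear_combination (z.re + s - 1) / 2 * hs
            · rw [G2_im, ← h0]; ring
          · show 0 < (z.re + s - 1) * (s / 2)
            nlinarith
      · refine ⟨z, ⟨⟨?_, h2⟩, ?_⟩, f_up h0 h⟩
        · rw [abs_of_nonneg h3]; exact h.le
        · rintro ⟨k1, _⟩; linarith

end Pool.Agent.Work.MP_ee1cd8_co_helper2
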